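import Pool.Agent.Helper45.AM.GoalsA
import Pool.Agent.Helper45.AM.GoalsE
import Pool.Agent.Helper45.AM.Basic

/-!
# Packet AM-E2 (MP_cc6379_al, project AM): P4.
-/

set_option autoImplicit false

open LaurentPolynomial Pool.Agent.Helper15.RA

noncomputable section

namespace Pool.Agent.Helper12.AM

open Pool.Agent.Helper45.AM

section

variable {S W H : Type} [Group W] [Ring H] [Algebra ℤ[T;T⁻¹] H] (X : AC S W H)

/-- Products of an element of `I_M` with arbitrary elements are in `I_M`. -/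
theorem idl_mul (hD : D_2) {M n : ℕ} {Z : H} (hZ : Z ∈ X.Idl M n) (Y : H) :
    ∃ n', Y * Z ∈ X.Idl M n' ∧ Z * Y ∈ X.Idl M n' := by
  have hY : Y ∈ Submodule.span ℤ[T;T⁻¹] (Set.range X.D.t) := by
    rw [X.D.t.span_eq]
    trivial
  induction hY using Submodule.span_induction with
  | mem y hy =>
    obtain ⟨w, rfl⟩ := hy
    exact ⟨n + X.sl w, (hD S W H X M).2.1 n Z hZ w⟩
  | zero => exact ⟨0, by simp, by simp⟩
  | add y y' _ _ h1 h2 =>
    obtain ⟨n₁, a1, b1⟩ := h1
    obtain ⟨n₂, a2, b2⟩ := h2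
    refine ⟨max n₁ n₂, ?_, ?_⟩
    · rw [add_mul]
      exact add_mem (AC.Idl_mono (le_max_left _ _) a1) (AC.Idl_mono (le_max_right _ _) a2)
    · rw [mul_add]
      exact add_mem (AC.Idl_mono (le_max_left _ _) b1) (AC.Idl_mono (le_max_right _ _) b2)
  | smul p y _ h1 =>
    obtain ⟨n₁, a1, b1⟩ := h1
    refine ⟨n₁, ?_, ?_⟩
    · rw [smul_mul_assoc]
      exact Submodule.smul_mem _ _ a1
    · rw [mul_smul_comm]
      exact Submodule.smul_mem _ _ b1

end

theorem h_e_2 (hA : A_B) (hB : B_5) (hD : D_2) (hE : E_1) : E_2 := by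
  intro S W H _ _ _ X hN hC m x y z hxy hz
  rcases m with _ | M
  · exact (hB S W H X).2.2.2.1 z
  · by_contra hG
    apply hz
    have key : ∃ n', X.D.c x * X.D.c y ∈ X.Idl M n' := by
      rcases hxy with h | h
      · have h1 := hC M (X.sl x + 1) x (Nat.lt_succ_self _) h
        obtain ⟨n', _, h2⟩ := idl_mul X hD h1 (X.D.c y)
        exact ⟨n', h2⟩
      · have h1 := hC M (X.sl y + 1) y (Nat.lt_succ_self _) h
        obtain ⟨n', h2, _⟩ := idl_mul X hD h1 (X.D.c x)
        exact ⟨n', h2⟩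
    obtain ⟨n', h3⟩ := key
    have h4 := (hE S W H X hN hC M n' _ z hG).1 h3
    rw [← (hA S W H X.toBase).1 x y]
    exact h4

end Pool.Agent.Helper12.AM
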